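import Pool.Agent.Q67.AXI.Defs3
import Pool.Agent.Q111.AXI.Cac

/-! Project AXP, part 3: the differential inequality of the energy of `JJ` and `OO`. -/

set_option autoImplicit false

open MeasureTheory Set Metric Filter Topology
open scoped ContDiff
open H459R3.NS Pool.Agent.W268.NS Pool.Agent.Q67.VD

namespace Pool.Agent.Q95.AXP

open Pool.Agent.Q85.CC Pool.Agent.Q85.CL Pool.Agent.TH305.AX Pool.Agent.Q67.AXI
open Pool.Agent.W583.MD (sm_pd pd_mul')
open Pool.Agent.Q111.AXI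

theorem sg_nn (x : V) : 0 ≤ sg x := by
  unfold sg
  positivity

theorem sg_cont : Continuous sg := by
  unfold sg
  fun_prop

theorem cy_compact (c : ℝ) {r h : ℝ} (hr : 0 < r) : IsCompact (Cy c r h) := by
  refine Metric.isCompact_of_isClosed_isBounded ?_ ?_
  · have k1 : IsClosed {x : V | sg x ≤ r ^ 2} := isClosed_le sg_cont continuous_const
    have k2 : IsClosed {x : V | |x 2 - c| ≤ h} := isClosed_le (by fun_prop) continuous_const
    exact k1.inter k2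
  · refine (isBounded_closedBall (x := (0 : V)) (r := max r (|c| + h))).subset ?_
    rintro y ⟨h1, h2⟩
    rw [mem_closedBall, dist_zero_right, pi_norm_le_iff_of_nonneg (le_max_of_le_left hr.le)]
    unfold sg at h1
    intro i
    rw [Real.norm_eq_abs]
    fin_cases i
    · refine le_max_of_le_left (abs_le_of_sq_le_sq ?_ hr.le)
      change y 0 ^ 2 ≤ r ^ 2
      nlinarith [sq_nonneg (y 1)]
    · refine le_max_of_le_left (abs_le_of_sq_le_sq ?_ hr.le)
      change y 1 ^ 2 ≤ r ^ 2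
      nlinarith [sq_nonneg (y 0)]
    · refine le_max_of_le_right ?_
      change |y 2| ≤ |c| + h
      calc |y 2| = |c + (y 2 - c)| := by rw [add_sub_cancel]
        _ ≤ |c| + |y 2 - c| := abs_add_le _ _
        _ ≤ |c| + h := by linarith

/-- outside the outer part nothing happens -/
theorem flat {c r h r1 h1 K : ℝ} {φ : V → ℝ} (hφ : Cut c r h r1 h1 K φ) {y : V}
    (hy : y ∉ Out c r h r1 h1) (j : Fin 3) : pd j φ y = 0 := by
  by_cases hc : y ∈ tsupport φ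
  · have a1 : y ∈ Co c r h := hφ.supp hc
    have a2 : y ∈ Cy c r h := ⟨a1.1.le, a1.2.le⟩
    have a3 : sg y < r1 ^ 2 ∧ |y 2 - c| < h1 := by
      constructor
      · by_contra hcon
        exact hy ⟨a2, Or.inl (not_lt.1 hcon)⟩
      · by_contra hcon
        exact hy ⟨a2, Or.inr (not_lt.1 hcon)⟩
    have ho : IsOpen {z : V | sg z < r1 ^ 2 ∧ |z 2 - c| < h1} :=
      (isOpen_lt sg_cont continuous_const).inter
        (isOpen_lt (f := fun z : V => |z 2 - c|) (g := fun _ => h1) (by fun_prop)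
          continuous_const)
    have a4 : φ =ᶠ[𝓝 y] fun _ => (1 : ℝ) := by
      filter_upwards [ho.mem_nhds a3] with z hz
      exact hφ.one z ⟨hz.1.le, hz.2.le⟩
    rw [pd_congr a4]
    unfold pd
    simp
  · exact pd_zero_of (ev_zero hc) j

theorem rem_pt {c r h r1 h1 K : ℝ} {φ : V → ℝ} (hφ : Cut c r h r1 h1 K φ) (hK : 0 ≤ K)
    {v : V → V} {f : V → ℝ} (hf : ∀ x ∈ Out c r h r1 h1, |f x| ≤ K ∧ ∀ i, |v x i| ≤ K) (y : V) :
    f y ^ 2 * (2 * gr2 φ y + W221.NS.adv v (fun z => φ z ^ 2) y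
      - 2 / sg y * RR (fun z => φ z ^ 2) y) ≤
      (Cy c r h).indicator (fun _ => K ^ 2 * (12 * K ^ 2 + 4 * K)) y := by
  by_cases hy : y ∈ Out c r h r1 h1
  · rw [indicator_of_mem hy.1]
    obtain ⟨h1, h2⟩ := hf y hy
    obtain ⟨b1, b2, b3⟩ := hφ.bd y
    have e0 : f y ^ 2 ≤ K ^ 2 := by
      rw [← sq_abs]
      exact pow_le_pow_left₀ (abs_nonneg _) h1 2
    have e1 : gr2 φ y ≤ 3 * K ^ 2 := by
      unfold gr2
      calc ∑ i, pd i φ y ^ 2 ≤ ∑ i : Fin 3, K ^ 2 := Finset.sum_le_sum fun i _ => by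
            rw [← sq_abs]
            exact pow_le_pow_left₀ (abs_nonneg _) (b1 i) 2
        _ = 3 * K ^ 2 := by
            rw [Finset.sum_const, Finset.card_univ, Fintype.card_fin]
            simp
    have e2 : W221.NS.adv v (fun z => φ z ^ 2) y ≤ 6 * K ^ 2 := by
      unfold W221.NS.adv
      calc ∑ j, v y j * pd j (fun z => φ z ^ 2) y ≤ ∑ j : Fin 3, 2 * K ^ 2 := by
            refine Finset.sum_le_sum fun j _ => ?_
            rw [sq_pd hφ.sm]
            calc v y j * (2 * φ y * pd j φ y) ≤ |v y j * (2 * φ y * pd j φ y)| := le_abs_self _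
              _ = |v y j| * (2 * φ y * |pd j φ y|) := by
                  rw [abs_mul, abs_mul, abs_mul, abs_two, abs_of_nonneg (hφ.nn y)]
              _ ≤ K * (2 * 1 * K) := by
                  refine mul_le_mul (h2 j) ?_ (by have := hφ.nn y; positivity) hK
                  refine mul_le_mul ?_ (b1 j) (abs_nonneg _) (by norm_num)
                  linarith [hφ.le y]
              _ = 2 * K ^ 2 := by ring
        _ = 6 * K ^ 2 := by
            rw [Finset.sum_const, Finset.card_univ, Fintype.card_fin]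
            ring
    have e3 : -(2 / sg y * RR (fun z => φ z ^ 2) y) ≤ 4 * K := by
      rw [RR_sq hφ.sm]
      rcases (sg_nn y).eq_or_lt with h0 | h0
      · rw [← h0, div_zero, zero_mul, neg_zero]
        positivity
      · have h4 : |φ y * RR φ y| ≤ K * sg y := by
          rw [abs_mul, abs_of_nonneg (hφ.nn y)]
          calc φ y * |RR φ y| ≤ 1 * (K * sg y) :=
                mul_le_mul (hφ.le y) b3 (abs_nonneg _) zero_le_one
            _ = _ := one_mul _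
        have h5 : -(φ y * RR φ y) ≤ K * sg y := (neg_le_abs _).trans h4
        calc -(2 / sg y * (2 * φ y * RR φ y)) = 4 / sg y * (-(φ y * RR φ y)) := by ring
          _ ≤ 4 / sg y * (K * sg y) := mul_le_mul_of_nonneg_left h5 (by positivity)
          _ = _ := by
              field_simp
    calc _ ≤ f y ^ 2 * (12 * K ^ 2 + 4 * K) :=
          mul_le_mul_of_nonneg_left (by linarith) (sq_nonneg _)
      _ ≤ _ := mul_le_mul_of_nonneg_right e0 (by positivity)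
  · have e1 : gr2 φ y = 0 := by
      unfold gr2
      refine Finset.sum_eq_zero fun i _ => ?_
      rw [flat hφ hy]
      ring
    have e2 : W221.NS.adv v (fun z => φ z ^ 2) y = 0 := by
      unfold W221.NS.adv
      refine Finset.sum_eq_zero fun i _ => ?_
      rw [sq_pd hφ.sm, flat hφ hy]
      ring
    have e3 : RR (fun z => φ z ^ 2) y = 0 := by
      rw [RR_sq hφ.sm]
      unfold RR
      rw [flat hφ hy, flat hφ hy]
      ring
    rw [e1, e2, e3]
    simp only [mul_zero, add_zero, sub_zero]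
    exact indicator_nonneg (fun z _ => by positivity) y

/-- the remainder in the energy inequality -/
theorem rem_le {c r h r1 h1 K : ℝ} {φ : V → ℝ} (hφ : Cut c r h r1 h1 K φ) (hK : 0 ≤ K)
    (hr : 0 < r) {v : V → V} {f : V → ℝ}
    (hf : ∀ x ∈ Out c r h r1 h1, |f x| ≤ K ∧ ∀ i, |v x i| ≤ K) :
    ∫ y, f y ^ 2 * (2 * gr2 φ y + W221.NS.adv v (fun z => φ z ^ 2) y
      - 2 / sg y * RR (fun z => φ z ^ 2) y) ≤
      volume.real (Cy c r h) * (K ^ 2 * (12 * K ^ 2 + 4 * K)) := by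
  have hc := cy_compact c (r := r) (h := h) hr
  have hm : MeasurableSet (Cy c r h) := hc.isClosed.measurableSet
  have hfin : volume (Cy c r h) ≠ ⊤ := hc.measure_lt_top.ne
  calc _ ≤ ∫ y, (Cy c r h).indicator (fun _ => K ^ 2 * (12 * K ^ 2 + 4 * K)) y := by
        refine int_le (fun y => rem_pt hφ hK hf y) (fun y => ?_)
          ((integrableOn_const hfin).integrable_indicator hm)
        exact indicator_nonneg (fun z _ => by positivity) y
    _ = ∫ y in Cy c r h, K ^ 2 * (12 * K ^ 2 + 4 * K) := integral_indicator hm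
    _ = _ := by rw [setIntegral_const, smul_eq_mul]

/-- the energy inequality for a function with a given equation -/
theorem en_gen (hEn : Pool.Agent.Q67.AXI.StmEn) {O : Set V} {φ : V → ℝ}
    (hO : IsOpen O) (hφ : ContDiff ℝ ∞ φ) (hφc : HasCompactSupport φ) (hφs : tsupport φ ⊆ O)
    {f : ℝ → V → ℝ} {τ : ℝ} {v : V → V} {S : V → ℝ} (hv : ContDiff ℝ ∞ v) (hdf : DFO O v)
    (hft : ContDiff ℝ ∞ (f τ)) (hS : ContDiff ℝ ∞ S)
    (heq : ∀ x ∈ O, sg x ≠ 0 → deriv (fun s => f s x) τ =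
      LL (f τ) x - W221.NS.adv v (f τ) x + S x) :
    ∫ x, 2 * φ x ^ 2 * f τ x * deriv (fun s => f s x) τ ≤
      -2 * GD (fun x => φ x * f τ x) + 2 * (∫ x, φ x ^ 2 * f τ x * S x)
        + ∫ x, f τ x ^ 2 * (2 * gr2 φ x + W221.NS.adv v (fun y => φ y ^ 2) x
          - 2 / sg x * RR (fun y => φ y ^ 2) x) := by
  obtain ⟨-, -, h3⟩ := hEn O v (f τ) S φ hO hv hdf hft hS hφ hφc hφs
  refine le_trans (le_of_eq ?_) h3
  refine integral_congr_ae ?_
  filter_upwards [ae_sg] with x hx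
  by_cases h0 : φ x = 0
  · simp only [h0]
    ring
  · rw [heq x (hφs (subset_tsupport φ h0)) hx]

theorem RR_sm {f : V → ℝ} (hf : ContDiff ℝ ∞ f) : ContDiff ℝ ∞ (RR f) := by
  have h0 := sm_pd hf 0
  have h1 := sm_pd hf 1
  unfold RR
  fun_prop

theorem SS_sm {v : V → V} (hU : ContDiff ℝ ∞ (UU v)) (hW : ContDiff ℝ ∞ (WW v)) :
    ContDiff ℝ ∞ (SS v) := by
  have h0 := RR_sm hU
  have h1 := RR_sm hW
  have h2 := sm_pd hU 2
  have h3 := sm_pd hW 2
  unfold SS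
  fun_prop

/-- the choice of the weight -/
theorem wt {C₀ α' ε₀ : ℝ} (hC : 1 ≤ C₀) (hα : 3 / 2 < α') (hε : 0 < ε₀) :
    ∃ M₀ : ℝ, 3 ≤ M₀ ∧ ∀ M : ℝ, M₀ ≤ M →
      M ^ (-ε₀) ≤ 8 * C₀ * Real.log M ^ (2 - 2 * α') ∧
      8 * C₀ * Real.log M ^ (2 - 2 * α') ≤ 1 ∧
      2 * (8 * C₀ * Real.log M ^ (2 - 2 * α')) * C₀ ^ 2 * (Real.log M ^ (2 - α')) ^ 2 ≤ 1 / 8 := by
  have hl : Tendsto Real.log atTop atTop := Real.tendsto_log_atTop
  have t1 : Tendsto (fun M : ℝ => Real.log M ^ (2 - 2 * α')) atTop (𝓝 0) := by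
    have h := (tendsto_rpow_neg_atTop (y := 2 * α' - 2) (by linarith)).comp hl
    refine h.congr fun M => ?_
    simp only [Function.comp]
    congr 1
    ring
  have t2 : Tendsto (fun M : ℝ => Real.log M ^ (6 - 4 * α')) atTop (𝓝 0) := by
    have h := (tendsto_rpow_neg_atTop (y := 4 * α' - 6) (by linarith)).comp hl
    refine h.congr fun M => ?_
    simp only [Function.comp]
    congr 1
    ring
  have t3 : (fun M : ℝ => Real.log M ^ (2 * α' - 2)) =o[atTop] fun M : ℝ => M ^ ε₀ :=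
    isLittleO_log_rpow_rpow_atTop _ hε
  have e1 : ∀ᶠ M : ℝ in atTop, Real.log M ^ (2 - 2 * α') < 1 / (8 * C₀) :=
    t1.eventually (gt_mem_nhds (by positivity))
  have e2 : ∀ᶠ M : ℝ in atTop, Real.log M ^ (6 - 4 * α') < 1 / (128 * C₀ ^ 3) :=
    t2.eventually (gt_mem_nhds (by positivity))
  have e3 := t3.bound (show (0 : ℝ) < 1 by norm_num)
  obtain ⟨M₀, hM₀⟩ := eventually_atTop.1 ((e1.and e2).and (e3.and (eventually_ge_atTop 3)))
  refine ⟨max 3 M₀, le_max_left _ _, fun M hM => ?_⟩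
  obtain ⟨⟨f1, f2⟩, f3, f4⟩ := hM₀ M ((le_max_right _ _).trans hM)
  have hM0 : 0 < M := by linarith
  have hlog : 0 < Real.log M := Real.log_pos (by linarith)
  have hC0 : 0 < C₀ := by linarith
  refine ⟨?_, ?_, ?_⟩
  · rw [Real.norm_of_nonneg (by positivity), Real.norm_of_nonneg (by positivity), one_mul] at f3
    have g1 : M ^ (-ε₀) = (M ^ ε₀)⁻¹ := Real.rpow_neg hM0.le _
    have g2 : Real.log M ^ (2 - 2 * α') = (Real.log M ^ (2 * α' - 2))⁻¹ := by
      rw [← Real.rpow_neg hlog.le]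
      congr 1
      ring
    rw [g1, g2]
    have g3 : (M ^ ε₀)⁻¹ ≤ (Real.log M ^ (2 * α' - 2))⁻¹ := inv_anti₀ (by positivity) f3
    have g4 : 0 < (Real.log M ^ (2 * α' - 2))⁻¹ := by positivity
    nlinarith
  · rw [lt_div_iff₀ (by positivity)] at f1
    linarith
  · have g1 : Real.log M ^ (2 - 2 * α') * (Real.log M ^ (2 - α')) ^ 2 =
        Real.log M ^ (6 - 4 * α') := by
      rw [← Real.rpow_natCast, ← Real.rpow_mul hlog.le, ← Real.rpow_add hlog]
      congr 1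
      push_cast
      ring
    rw [lt_div_iff₀ (by positivity)] at f2
    calc 2 * (8 * C₀ * Real.log M ^ (2 - 2 * α')) * C₀ ^ 2 * (Real.log M ^ (2 - α')) ^ 2
        = (Real.log M ^ (2 - 2 * α') * (Real.log M ^ (2 - α')) ^ 2) * (128 * C₀ ^ 3) / 8 := by ring
      _ = Real.log M ^ (6 - 4 * α') * (128 * C₀ ^ 3) / 8 := by rw [g1]
      _ ≤ 1 / 8 := by linarith

/-- the algebra -/
theorem alg {A B C₁ C₂ C₀ L1 L2 Mp G N E J2 O2 R PMv l D1 D2 X1 X2 : ℝ} (hA : 0 ≤ A) (hB : 0 ≤ B)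
    (hG : 0 ≤ G) (hC₀ : 1 ≤ C₀) (hC1 : C₁ ≤ C₀) (hC2 : C₂ ≤ C₀) (hMp : 1 ≤ Mp)
    (hN0 : 0 ≤ N) (hN : N ≤ E) (hJ2 : 0 ≤ J2) (hO2 : 0 ≤ O2) (hR : 0 ≤ R) (hP : 0 ≤ PMv)
    (hL1 : 0 ≤ L1) (hL2 : 0 ≤ L2) (hl : l = 8 * C₀ * L1) (hl1 : l ≤ 1) (hl0 : 0 < l)
    (hs : 2 * l * C₀ ^ 2 * L2 ^ 2 ≤ 1 / 8)
    (hX1 : 2 * X1 ≤ 1 / 8 * A + C₁ * L1 * B + C₁ * Mp * (1 + (G + N)) + C₁ * PMv * (1 + O2))
    (hX2 : 2 * X2 ≤ C₂ * L2 * √(A * B) + C₂ * Mp * G + C₂ * PMv * (J2 + O2))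
    (hD1 : D1 ≤ -2 * A + 2 * X1 + R) (hD2 : D2 ≤ -2 * B + 2 * X2 + R) :
    D1 + l * D2 ≤ -(A + l * B) + (2 * C₀ + C₀ * E + 2 * R) * Mp * (1 + G)
      + 2 * C₀ * PMv * (1 + (J2 + l * O2) / l) := by
  have hC0' : 0 < C₀ := by linarith
  have a1 : C₁ * L1 * B ≤ C₀ * L1 * B := by gcongr
  have a2 : C₁ * Mp * (1 + (G + N)) ≤ C₀ * Mp * (1 + (G + N)) := by gcongr
  have a3 : C₁ * PMv * (1 + O2) ≤ C₀ * PMv * (1 + O2) := by gcongr
  have a4 : C₂ * L2 * √(A * B) ≤ C₀ * L2 * √(A * B) := by gcongr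
  have a5 : C₂ * Mp * G ≤ C₀ * Mp * G := by gcongr
  have a6 : C₂ * PMv * (J2 + O2) ≤ C₀ * PMv * (J2 + O2) := by gcongr
  have b1 : C₀ * L1 * B = l * B / 8 := by rw [hl]; ring
  have b2 : l * (C₀ * L2 * √(A * B)) ≤ A / 8 + l * B / 8 := by
    have hsA : √A ^ 2 = A := Real.sq_sqrt hA
    have hsB : √B ^ 2 = B := Real.sq_sqrt hB
    rw [Real.sqrt_mul hA]
    have c1 : l * (C₀ * L2 * (√A * √B)) ≤ √A ^ 2 / 8 + 2 * (l * C₀ * L2 * √B) ^ 2 := by
      have := sq_nonneg (√A - 4 * (l * C₀ * L2 * √B))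
      linarith
    have c2 : 2 * (l * C₀ * L2 * √B) ^ 2 = (2 * l * C₀ ^ 2 * L2 ^ 2) * (l * √B ^ 2) := by ring
    rw [c2, hsA, hsB] at c1
    have c3 : (2 * l * C₀ ^ 2 * L2 ^ 2) * (l * B) ≤ 1 / 8 * (l * B) :=
      mul_le_mul_of_nonneg_right hs (by positivity)
    linarith
  have b3 : l * (C₀ * Mp * G) ≤ C₀ * Mp * G := by
    have : 0 ≤ C₀ * Mp * G := by positivity
    exact mul_le_of_le_one_left this hl1
  have b4 : l * R ≤ R := mul_le_of_le_one_left hR hl1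
  have b5 : R ≤ R * Mp * (1 + G) := by
    have : 1 ≤ Mp * (1 + G) := one_le_mul_of_one_le_of_one_le hMp (by linarith)
    rw [mul_assoc]
    exact le_mul_of_one_le_right hR this
  have b6 : C₀ * Mp * N ≤ C₀ * E * Mp * (1 + G) := by
    have c1 : C₀ * Mp * N ≤ C₀ * Mp * E := by gcongr
    have c2 : 0 ≤ C₀ * Mp * E * G := by
      have : 0 ≤ E := hN0.trans hN
      positivity
    linarith
  have hY : 0 ≤ J2 + l * O2 := by positivity
  have b7 : O2 ≤ (J2 + l * O2) / l := by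
    rw [le_div_iff₀ hl0]
    linarith
  have b8 : l * (J2 + O2) ≤ (J2 + l * O2) / l := by
    rw [le_div_iff₀ hl0]
    have c1 : l * (J2 + O2) ≤ J2 + l * O2 := by
      have := mul_le_of_le_one_left hJ2 hl1
      linarith
    have c2 : l * (J2 + O2) * l ≤ l * (J2 + O2) * 1 :=
      mul_le_mul_of_nonneg_left hl1 (by positivity)
    linarith
  have b9 : C₀ * PMv * (1 + O2) ≤ C₀ * PMv * (1 + (J2 + l * O2) / l) := by gcongr
  have b10 : l * (C₀ * PMv * (J2 + O2)) ≤ C₀ * PMv * (1 + (J2 + l * O2) / l) := by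
    have c1 : l * (C₀ * PMv * (J2 + O2)) = C₀ * PMv * (l * (J2 + O2)) := by ring
    rw [c1]
    have c2 : 0 ≤ C₀ * PMv := by positivity
    exact mul_le_mul_of_nonneg_left (b8.trans (by linarith)) c2
  have d1 : D1 ≤ -2 * A + (1 / 8 * A + l * B / 8 + C₀ * Mp * (1 + (G + N))
      + C₀ * PMv * (1 + O2)) + R := by linarith
  have d2 : l * D2 ≤ -2 * (l * B) + (A / 8 + l * B / 8 + C₀ * Mp * G
      + l * (C₀ * PMv * (J2 + O2))) + R := by
    have c1 : D2 ≤ -2 * B + (C₀ * L2 * √(A * B) + C₀ * Mp * G + C₀ * PMv * (J2 + O2)) + R := by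
      linarith
    have c2 := mul_le_mul_of_nonneg_left c1 hl0.le
    linarith
  have hlB : 0 ≤ l * B := by positivity
  have hCM : 0 ≤ C₀ * Mp := by positivity
  linarith

theorem yd : StmAlg → StmAxF → StmDiv → StmEqJ → StmEqO → StmJnt → StmDt →
    Pool.Agent.Q67.AXI.StmEn → StmT1P → StmT2P → StmYdP := by
  intro hAlg _ _ hEqJ hEqO hJnt hDt hEn hT1 hT2 T E c R H K r h r1 h1 T₁ C' C₀' α' θ ε₀ u p φ
    hsol hK hr1 hr1r hrR hr2 hh1 hh1h hhH hh hT₁ hT₁T hC' hC₀' hα hα2 hε hcut hout hcirc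
  have hr : 0 < r := hr1.trans hr1r
  obtain ⟨C₁, hC₁, hT1⟩ := hT1 K c r h r1 h1 C' C₀' α' hK hr1 hr1r hr2 hh1 hh1h hh hC' hC₀'
    (by linarith) hα2
  obtain ⟨C₂, hC₂, hT2⟩ := hT2 K c r h r1 h1 C' C₀' α' hK hr1 hr1r hr2 hh1 hh1h hh hC' hC₀'
    (by linarith) hα2
  obtain ⟨C₀, hC₀⟩ : ∃ C₀ : ℝ, C₀ = max 1 (max C₁ C₂) := ⟨_, rfl⟩
  have k1 : 1 ≤ C₀ := by rw [hC₀]; exact le_max_left _ _
  have k2 : C₁ ≤ C₀ := by rw [hC₀]; exact (le_max_left _ _).trans (le_max_right _ _)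
  have k3 : C₂ ≤ C₀ := by rw [hC₀]; exact (le_max_right _ _).trans (le_max_right _ _)
  obtain ⟨M₀, hM₀3, hM₀⟩ := wt k1 hα hε
  obtain ⟨Rm, hRm⟩ : ∃ Rm : ℝ, Rm = volume.real (Cy c r h) * (K ^ 2 * (12 * K ^ 2 + 4 * K)) :=
    ⟨_, rfl⟩
  have hRm0 : 0 ≤ Rm := by rw [hRm]; positivity
  have hsub : Co c r h ⊆ Co c R H := by
    rintro x ⟨hx1, hx2⟩
    refine ⟨hx1.trans ?_, hx2.trans hhH⟩
    nlinarith
  have hnn : ∀ (v : V → V) y, 0 ≤ W221.NS.nsq v y := fun v y =>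
    Finset.sum_nonneg fun i _ => sq_nonneg _
  have hgn : ∀ (v : V → V) y, 0 ≤ W221.NS.gsq v y := fun v y =>
    Finset.sum_nonneg fun i _ => Finset.sum_nonneg fun j _ => sq_nonneg _
  have hE : 0 ≤ E := by
    have hTT : (T₁ + T) / 2 ∈ Ioo 0 T := ⟨by linarith, by linarith⟩
    exact (integral_nonneg (fun y => hnn _ y)).trans (hsol.en _ hTT)
  refine ⟨max (2 * C₀ + C₀ * E + 2 * Rm) (2 * C₀), M₀, ?_, hM₀3, fun M hM => ?_⟩
  · exact le_max_of_le_right (by linarith)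
  obtain ⟨w1, w2, w3⟩ := hM₀ M hM
  have hM3 : 3 ≤ M := hM₀3.trans hM
  have hM0 : 0 < M := by linarith
  have hlog : 0 < Real.log M := Real.log_pos (by linarith)
  obtain ⟨l, hl⟩ : ∃ l : ℝ, l = 8 * C₀ * Real.log M ^ (2 - 2 * α') := ⟨_, rfl⟩
  rw [← hl] at w1 w2 w3
  have hl0 : 0 < l := (Real.rpow_pos_of_pos hM0 _).trans_le w1
  refine ⟨l, w1, w2, fun t ht hWM => ?_⟩
  have ht0 : t ∈ Ioo 0 T := ⟨hT₁.trans_le ht.1, ht.2⟩
  have hu := sm_slice hsol.smooth_u ht0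
  have hax := hsol.axi t ht0
  obtain ⟨⟨hUs, hWs, hJs, hOs⟩, -⟩ := hAlg (u t) hu hax
  obtain ⟨-, -, hJJ, hJO⟩ := hJnt T u hsol.smooth_u
  obtain ⟨-, hDJ⟩ := hDt T (fun t => JJ (u t)) φ hJJ hcut.sm hcut.cs
  obtain ⟨-, hDO⟩ := hDt T (fun t => OO (u t)) φ hJO hcut.sm hcut.cs
  refine ⟨_, (hDJ t ht0).add ((hDO t ht0).const_mul l), ?_⟩
  have hsupp : tsupport φ ⊆ Co c R H := hcut.supp.trans hsub
  have hPpos : 0 < (T - t) ^ θ := Real.rpow_pos_of_pos (by linarith [ht.2]) _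
  have hcl : DFO (Co c r h) (u t) := fun x hx => hsol.divfree t ht0 x (hsub hx)
  have x1 := hT1 M ((T - t) ^ θ) (u t) φ hM3 hPpos hu hax hcl hcut (hout t ht)
    (fun x hx => (hcirc t ht x hx).1) (fun x hx => (hcirc t ht x hx).2)
  have x2 := hT2 M ((T - t) ^ θ) (u t) φ hM3 hPpos hu hax hcut
    (fun x hx => (hcirc t ht x hx).1) (fun x hx => (hcirc t ht x hx).2) hWM
  have d1 := en_gen hEn hsol.openO hcut.sm hcut.cs hsupp (f := fun s => JJ (u s)) (τ := t)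
    (v := u t) (S := SS (u t)) hu (hsol.divfree t ht0) hJs (SS_sm hUs hWs)
    (fun x hx hx0 => (hEqJ T E c R H u p hsol t ht0 x hx hx0).deriv)
  have hSO : ContDiff ℝ ∞ (fun x => -2 * WW (u t) x * JJ (u t) x) :=
    (contDiff_const.mul hWs).mul hJs
  have d2 := en_gen hEn hsol.openO hcut.sm hcut.cs hsupp (f := fun s => OO (u s)) (τ := t)
    (v := u t) (S := fun x => -2 * WW (u t) x * JJ (u t) x) hu (hsol.divfree t ht0) hOs hSO
    (fun x hx hx0 => by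
      rw [(hEqO T E c R H u p hsol t ht0 x hx hx0).deriv]
      ring)
  have r1' := rem_le (v := u t) (f := JJ (u t)) hcut hK hr
    (fun x hx => ⟨(hout t ht x hx).2.2.2.1, (hout t ht x hx).1⟩)
  have r2' := rem_le (v := u t) (f := OO (u t)) hcut hK hr
    (fun x hx => ⟨(hout t ht x hx).2.2.2.2.1, (hout t ht x hx).1⟩)
  rw [← hRm] at r1' r2'
  have hint : ∀ x, φ x ^ 2 * OO (u t) x * (-2 * WW (u t) x * JJ (u t) x) =
      -2 * (φ x ^ 2 * OO (u t) x * (WW (u t) x * JJ (u t) x)) := fun x => by ring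
  simp only [hint, integral_const_mul] at d2
  -- the integrals over the cylinder
  have hcc : IsCompact (Cy c r h) := cy_compact c hr
  have hcy : Co c r h ⊆ Cy c r h := fun x hx => ⟨hx.1.le, hx.2.le⟩
  have hgc : Continuous (W221.NS.gsq (u t)) := by
    have hi : ∀ i, ContDiff ℝ ∞ (fun y => u t y i) := fun i => contDiff_pi.1 hu i
    unfold W221.NS.gsq
    exact continuous_finsetSum _ fun i _ => continuous_finsetSum _ fun j _ =>
      (sm_pd (hi i) j).continuous.pow 2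
  have hgi : IntegrableOn (W221.NS.gsq (u t)) (Co c r h) :=
    (hgc.continuousOn.integrableOn_compact hcc).mono_set hcy
  have hni : IntegrableOn (W221.NS.nsq (u t)) (Co c r h) :=
    ((nsq_cont hu).continuousOn.integrableOn_compact hcc).mono_set hcy
  rw [integral_add hgi hni] at x1
  have hNE : ∫ x in Co c r h, W221.NS.nsq (u t) x ≤ E :=
    (setIntegral_mono_set (hsol.en_int t ht0) (ae_of_all _ fun y => hnn _ y)
      (LE.le.eventuallyLE hsub)).trans (hsol.en t ht0)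
  have hPM : 0 ≤ PM M ((T - t) ^ θ) := by
    unfold PM
    split_ifs
    · positivity
    · exact le_rfl
  have hMp : 1 ≤ M ^ (3 / 8 : ℝ) := Real.one_le_rpow (by linarith) (by norm_num)
  have hGD : ∀ f : V → ℝ, 0 ≤ GD f := fun f => integral_nonneg fun x => gr2_nonneg _ x
  have key := alg (A := GD (fun x => φ x * JJ (u t) x)) (B := GD (fun x => φ x * OO (u t) x))
    (C₁ := C₁) (C₂ := C₂) (C₀ := C₀) (L1 := Real.log M ^ (2 - 2 * α'))
    (L2 := Real.log M ^ (2 - α')) (Mp := M ^ (3 / 8 : ℝ))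
    (G := ∫ x in Co c r h, W221.NS.gsq (u t) x) (N := ∫ x in Co c r h, W221.NS.nsq (u t) x)
    (E := E) (J2 := ∫ x, φ x ^ 2 * JJ (u t) x ^ 2) (O2 := ∫ x, φ x ^ 2 * OO (u t) x ^ 2)
    (R := Rm) (PMv := PM M ((T - t) ^ θ)) (l := l)
    (D1 := ∫ x, 2 * φ x ^ 2 * JJ (u t) x * deriv (fun s => JJ (u s) x) t)
    (D2 := ∫ x, 2 * φ x ^ 2 * OO (u t) x * deriv (fun s => OO (u s) x) t)
    (X1 := |∫ x, φ x ^ 2 * JJ (u t) x * SS (u t) x|)
    (X2 := 2 * |∫ x, φ x ^ 2 * OO (u t) x * (WW (u t) x * JJ (u t) x)|)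
    (hGD _) (hGD _) (integral_nonneg fun x => hgn _ x) k1 k2 k3 hMp
    (integral_nonneg fun x => hnn _ x) hNE (integral_nonneg fun x => by positivity)
    (integral_nonneg fun x => by positivity) hRm0 hPM (by positivity) (by positivity) hl w2 hl0 w3
    x1 (by linarith) ?_ ?_
  · refine key.trans ?_
    have g1 : (2 * C₀ + C₀ * E + 2 * Rm) * M ^ (3 / 8 : ℝ)
        * (1 + ∫ x in Co c r h, W221.NS.gsq (u t) x) ≤
        max (2 * C₀ + C₀ * E + 2 * Rm) (2 * C₀) * M ^ (3 / 8 : ℝ)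
        * (1 + ∫ x in Co c r h, W221.NS.gsq (u t) x) := by
      have g0 : 0 ≤ ∫ x in Co c r h, W221.NS.gsq (u t) x := integral_nonneg fun x => hgn _ x
      gcongr
      exact le_max_left _ _
    have g2 : 2 * C₀ * PM M ((T - t) ^ θ) * (1 + ((∫ x, φ x ^ 2 * JJ (u t) x ^ 2)
            + l * ∫ x, φ x ^ 2 * OO (u t) x ^ 2) / l) ≤
        max (2 * C₀ + C₀ * E + 2 * Rm) (2 * C₀) * PM M ((T - t) ^ θ)
          * (1 + ((∫ x, φ x ^ 2 * JJ (u t) x ^ 2)
            + l * ∫ x, φ x ^ 2 * OO (u t) x ^ 2) / l) := by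
      have g0 : 0 ≤ ∫ x, φ x ^ 2 * JJ (u t) x ^ 2 := integral_nonneg fun x => by positivity
      have g3 : 0 ≤ ∫ x, φ x ^ 2 * OO (u t) x ^ 2 := integral_nonneg fun x => by positivity
      gcongr
      exact le_max_right _ _
    linarith
  · refine d1.trans ?_
    have := le_abs_self (∫ x, φ x ^ 2 * JJ (u t) x * SS (u t) x)
    linarith
  · refine d2.trans ?_
    have := neg_abs_le (∫ x, φ x ^ 2 * OO (u t) x * (WW (u t) x * JJ (u t) x))
    linarith

end Pool.Agent.Q95.AXP
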